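import Pool.Agent.Helper88.ETC.F123
import Pool.Agent.Helper39.ETC.G49
import Pool.Agent.Helper39.ETC.G1011
import Pool.Agent.Helper8.ETC.G12

/-!
# Block ETC-R1: an involution inducing a given ordering
-/

set_option autoImplicit false

namespace Pool.Helper37.ETC

section R1a

variable {K : Type*} [Field K]

theorem R1_two (R : Subfield K) : (2 : K) ∈ R := by
  have h := R.add_mem R.one_mem R.one_mem
  have e : (1 : K) + 1 = 2 := by norm_num
  rwa [e] at h

/-- The preordering generated by `P` in the field `R`. -/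
def R1_T (P : Set K) (R : Subfield K) : AddSubmonoid K :=
  AddSubmonoid.closure {z | ∃ q ∈ P, ∃ x ∈ R, z = q * x ^ 2}

theorem R1_gen {P : Set K} {R : Subfield K} {q x : K} (hq : q ∈ P) (hx : x ∈ R) :
    q * x ^ 2 ∈ R1_T P R := AddSubmonoid.subset_closure ⟨q, hq, x, hx, rfl⟩

theorem R1_mul {P : Set K} (hP : ∀ q ∈ P, ∀ r ∈ P, q * r ∈ P) {R : Subfield K} {s t : K}
    (hs : s ∈ R1_T P R) (ht : t ∈ R1_T P R) : s * t ∈ R1_T P R := by
  induction hs using AddSubmonoid.closure_induction with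
  | mem s hs =>
    obtain ⟨q, hq, x, hx, rfl⟩ := hs
    induction ht using AddSubmonoid.closure_induction with
    | mem t ht =>
      obtain ⟨r, hr, y, hy, rfl⟩ := ht
      have : q * x ^ 2 * (r * y ^ 2) = (q * r) * (x * y) ^ 2 := by ring
      rw [this]
      exact R1_gen (hP q hq r hr) (R.mul_mem hx hy)
    | zero => rw [mul_zero]; exact zero_mem _
    | add a b _ _ ha hb => rw [mul_add]; exact add_mem ha hb
  | zero => rw [zero_mul]; exact zero_mem _
  | add a b _ _ ha hb => rw [add_mul]; exact add_mem ha hb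

theorem R1_mono {P : Set K} {R R' : Subfield K} (h : R ≤ R') : R1_T P R ≤ R1_T P R' := by
  apply AddSubmonoid.closure_mono
  rintro z ⟨q, hq, x, hx, rfl⟩
  exact ⟨q, hq, x, h hx, rfl⟩

theorem R1_sub {P : Set K} {R : Subfield K} (hP : ∀ q ∈ P, q ∈ R) {t : K} (ht : t ∈ R1_T P R) :
    t ∈ R := by
  induction ht using AddSubmonoid.closure_induction with
  | mem t ht =>
    obtain ⟨r, hr, y, hy, rfl⟩ := ht
    exact R.mul_mem (hP r hr) (R.pow_mem hy 2)
  | zero => exact R.zero_mem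
  | add a b _ _ ha hb => exact R.add_mem ha hb

/-- The quadratic extension `R + R y`, `y² ∈ R`. -/
def R1_ext (R : Subfield K) (y : K) (hy : y ^ 2 ∈ R) : Subfield K where
  carrier := {z | ∃ u ∈ R, ∃ v ∈ R, z = u + v * y}
  mul_mem' := by
    rintro _ _ ⟨u, hu, v, hv, rfl⟩ ⟨u', hu', v', hv', rfl⟩
    refine ⟨u * u' + v * v' * y ^ 2, R.add_mem (R.mul_mem hu hu')
      (R.mul_mem (R.mul_mem hv hv') hy), u * v' + v * u',
      R.add_mem (R.mul_mem hu hv') (R.mul_mem hv hu'), by ring⟩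
  one_mem' := ⟨1, R.one_mem, 0, R.zero_mem, by ring⟩
  add_mem' := by
    rintro _ _ ⟨u, hu, v, hv, rfl⟩ ⟨u', hu', v', hv', rfl⟩
    exact ⟨u + u', R.add_mem hu hu', v + v', R.add_mem hv hv', by ring⟩
  zero_mem' := ⟨0, R.zero_mem, 0, R.zero_mem, by ring⟩
  neg_mem' := by
    rintro _ ⟨u, hu, v, hv, rfl⟩
    exact ⟨-u, R.neg_mem hu, -v, R.neg_mem hv, by ring⟩
  inv_mem' := by
    rintro _ ⟨u, hu, v, hv, rfl⟩
    by_cases h0 : u + v * y = 0
    · rw [h0, inv_zero]
      exact ⟨0, R.zero_mem, 0, R.zero_mem, by ring⟩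
    by_cases h1 : u - v * y = 0
    · -- then `u + v y = 2 u`
      have h2 : u + v * y = 2 * u := by linear_combination (-1 : K) * h1
      rw [h2]
      have h3 : (2 * u)⁻¹ ∈ R := by
        apply R.inv_mem
        exact R.mul_mem (R1_two R) hu
      exact ⟨_, h3, 0, R.zero_mem, by ring⟩
    · have h2 : u ^ 2 - v ^ 2 * y ^ 2 ≠ 0 := by
        have : u ^ 2 - v ^ 2 * y ^ 2 = (u + v * y) * (u - v * y) := by ring
        rw [this]
        exact mul_ne_zero h0 h1
      have h3 : u ^ 2 - v ^ 2 * y ^ 2 ∈ R :=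
        R.sub_mem (R.pow_mem hu 2) (R.mul_mem (R.pow_mem hv 2) hy)
      refine ⟨u / (u ^ 2 - v ^ 2 * y ^ 2), R.div_mem hu h3, -v / (u ^ 2 - v ^ 2 * y ^ 2),
        R.div_mem (R.neg_mem hv) h3, ?_⟩
      field_simp
      ring

theorem R1_le_ext (R : Subfield K) (y : K) (hy : y ^ 2 ∈ R) : R ≤ R1_ext R y hy :=
  fun x hx => ⟨x, hx, 0, R.zero_mem, by ring⟩

theorem R1_mem_ext (R : Subfield K) (y : K) (hy : y ^ 2 ∈ R) : y ∈ R1_ext R y hy :=
  ⟨0, R.zero_mem, 1, R.one_mem, by ring⟩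

/-- Elements of the preordering of the quadratic extension. -/
theorem R1_T_ext {P : Set K} {R : Subfield K} (hPR : ∀ q ∈ P, q ∈ R) {y : K} (hy : y ^ 2 ∈ R)
    {t : K} (ht : t ∈ R1_T P (R1_ext R y hy)) :
    ∃ s ∈ R1_T P R, ∃ s' ∈ R1_T P R, ∃ w ∈ R, t = s + y ^ 2 * s' + w * y := by
  induction ht using AddSubmonoid.closure_induction with
  | mem t ht =>
    obtain ⟨q, hq, z, ⟨u, hu, v, hv, rfl⟩, rfl⟩ := ht
    exact ⟨q * u ^ 2, R1_gen hq hu, q * v ^ 2, R1_gen hq hv, 2 * q * u * v,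
      R.mul_mem (R.mul_mem (R.mul_mem
        (R1_two R) (hPR q hq)) hu) hv,
      by ring⟩
  | zero => exact ⟨0, zero_mem _, 0, zero_mem _, 0, R.zero_mem, by ring⟩
  | add a b _ _ ha hb =>
    obtain ⟨s, hs, s', hs', w, hw, rfl⟩ := ha
    obtain ⟨r, hr, r', hr', x, hx, rfl⟩ := hb
    exact ⟨s + r, add_mem hs hr, s' + r', add_mem hs' hr', w + x, R.add_mem hw hx, by ring⟩

/-- A subfield maximal with the property that the preordering is proper. -/
structure R1_Max (P : Set K) (R : Subfield K) : Prop where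
  sub : ∀ q ∈ P, q ∈ R
  one : (1 : K) ∈ P
  mul : ∀ q ∈ P, ∀ r ∈ P, q * r ∈ P
  proper : (-1 : K) ∉ R1_T P R
  max : ∀ R' : Subfield K, R ≤ R' → (-1 : K) ∉ R1_T P R' → R' = R
  root : ∀ x : K, ∃ y : K, y ^ 2 = x

namespace R1_Max

variable {P : Set K} {R : Subfield K}

theorem sq_mem (h : R1_Max P R) {x : K} (hx : x ∈ R) : x ^ 2 ∈ R1_T P R := by
  have := R1_gen h.one hx
  rwa [one_mul] at this

theorem P_mem (_h : R1_Max P R) {q : K} (hq : q ∈ P) : q ∈ R1_T P R := by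
  have := R1_gen hq R.one_mem
  simpa using this

theorem not_both (h : R1_Max P R) {x : K} (hx0 : x ≠ 0) (hx : x ∈ R1_T P R)
    (hx' : -x ∈ R1_T P R) : False := by
  apply h.proper
  have hxR : x ∈ R := R1_sub h.sub hx
  have h1 := R1_mul h.mul (R1_mul h.mul hx' hx) (h.sq_mem (R.inv_mem hxR))
  have h2 : -x * x * x⁻¹ ^ 2 = -1 := by field_simp
  rwa [h2] at h1

/-- Step (1). -/
theorem sqrt_mem (h : R1_Max P R) {x : K} (hx : x ∈ R) (hnx : -x ∉ R1_T P R) {y : K}
    (hy : y ^ 2 = x) : y ∈ R := by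
  by_contra hyR
  have hyy : y ^ 2 ∈ R := by rw [hy]; exact hx
  have hne : R1_ext R y hyy ≠ R := fun h0 => hyR (h0 ▸ R1_mem_ext R y hyy)
  apply hne
  apply h.max _ (R1_le_ext R y hyy)
  intro hcon
  obtain ⟨s, hs, s', hs', w, hw, heq⟩ := R1_T_ext h.sub hyy hcon
  have hsR : s ∈ R := R1_sub h.sub hs
  have hsR' : s' ∈ R := R1_sub h.sub hs'
  have hw0 : w = 0 := by
    by_contra hw0
    apply hyR
    have : y = (-1 - s - y ^ 2 * s') / w := by
      field_simp
      linear_combination (-1 : K) * heq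
    rw [this]
    exact R.div_mem (R.sub_mem (R.sub_mem (R.neg_mem R.one_mem) hsR) (R.mul_mem hyy hsR')) hw
  rw [hw0, zero_mul, add_zero] at heq
  by_cases hs0 : s' = 0
  · apply h.proper
    rw [heq, hs0, mul_zero, add_zero]
    exact hs
  · apply hnx
    have h1 : -x = (1 + s) * s' * s'⁻¹ ^ 2 := by
      rw [← hy]
      field_simp
      linear_combination heq
    rw [h1]
    have hone : (1 : K) ∈ R1_T P R := h.P_mem h.one
    exact R1_mul h.mul (R1_mul h.mul (add_mem hone hs) hs') (h.sq_mem (R.inv_mem hsR'))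

/-- Step (2): every element of `R` is a square of `R` up to sign. -/
theorem sq_or (h : R1_Max P R) {x : K} (hx : x ∈ R) (hx0 : x ≠ 0) :
    (∃ y ∈ R, y ^ 2 = x) ∨ ∃ y ∈ R, y ^ 2 = -x := by
  by_cases h1 : -x ∈ R1_T P R
  · right
    obtain ⟨y, hy⟩ := h.root (-x)
    refine ⟨y, h.sqrt_mem (R.neg_mem hx) ?_ hy, hy⟩
    rw [neg_neg]
    intro h2
    exact h.not_both hx0 h2 h1
  · left
    obtain ⟨y, hy⟩ := h.root x
    exact ⟨y, h.sqrt_mem hx h1 hy, hy⟩

/-- Step (3): the preordering is the set of squares. -/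
theorem T_sq (h : R1_Max P R) {t : K} (ht : t ∈ R1_T P R) : ∃ y ∈ R, y ^ 2 = t := by
  by_cases h0 : t = 0
  · exact ⟨0, R.zero_mem, by rw [h0]; ring⟩
  obtain ⟨y, hy⟩ := h.root t
  exact ⟨y, h.sqrt_mem (R1_sub h.sub ht) (fun h2 => h.not_both h0 ht h2) hy, hy⟩

/-- Step (4): every element of `R(i)` is a square in `R(i)`. -/
theorem sq_ext (h : R1_Max P R) {i : K} (hi : i ^ 2 = -1) {u v : K} (hu : u ∈ R) (hv : v ∈ R) :
    ∃ s ∈ R, ∃ t ∈ R, (s + t * i) ^ 2 = u + v * i := by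
  have h2 : (2 : K) ≠ 0 := by
    intro h0
    apply h.proper
    have : (-1 : K) = 1 := by linear_combination (-1 : K) * h0
    rw [this]
    exact h.P_mem h.one
  -- `w` with `w² = u² + v²`, `w` nonnegative
  have hsum : u ^ 2 + v ^ 2 ∈ R1_T P R := add_mem (h.sq_mem hu) (h.sq_mem hv)
  obtain ⟨w0, hw0R, hw0⟩ := h.T_sq hsum
  obtain ⟨w, hwR, hw, hwT⟩ : ∃ w ∈ R, w ^ 2 = u ^ 2 + v ^ 2 ∧ w ∈ R1_T P R := by
    by_cases h0 : w0 = 0
    · exact ⟨w0, hw0R, hw0, by rw [h0]; exact zero_mem _⟩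
    rcases h.sq_or hw0R h0 with ⟨y, hy, hyw⟩ | ⟨y, hy, hyw⟩
    · exact ⟨w0, hw0R, hw0, by rw [← hyw]; exact h.sq_mem hy⟩
    · exact ⟨-w0, R.neg_mem hw0R, by rw [neg_sq, hw0], by rw [← hyw]; exact h.sq_mem hy⟩
  have hprod : (w + u) * (w - u) = v ^ 2 := by linear_combination hw
  have hpos : ∀ a b : K, a ∈ R → b ∈ R → a * b = v ^ 2 → a + b ∈ R1_T P R → a ∈ R1_T P R := by
    intro a b ha hb hab hsum
    by_cases ha0 : a = 0
    · rw [ha0]
      exact zero_mem _
    rcases h.sq_or ha ha0 with ⟨y, hy, hya⟩ | ⟨y, hy, hya⟩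
    · rw [← hya]
      exact h.sq_mem hy
    · exfalso
      have hna : -a ∈ R1_T P R := by rw [← hya]; exact h.sq_mem hy
      have hnb : -b ∈ R1_T P R := by
        have h3 : -b = (-a) * v ^ 2 * a⁻¹ ^ 2 := by
          have : b = v ^ 2 / a := by
            field_simp
            linear_combination hab
          rw [this]
          field_simp
        rw [h3]
        exact R1_mul h.mul (R1_mul h.mul hna (h.sq_mem hv)) (h.sq_mem (R.inv_mem ha))
      have hnab : -(a + b) ∈ R1_T P R := by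
        have : -(a + b) = -a + -b := by ring
        rw [this]
        exact add_mem hna hnb
      by_cases hab0 : a + b = 0
      · -- then `b = -a`, `-a ∈ T`, so `b ∈ T` and `-b ∈ T`, `b ≠ 0`
        have hb' : b = -a := by linear_combination hab0
        rw [hb'] at hnb
        rw [neg_neg] at hnb
        exact h.not_both ha0 hnb hna
      · exact h.not_both hab0 hsum hnab
  have h2w : (w + u) + (w - u) ∈ R1_T P R := by
    have : (w + u) + (w - u) = w + w := by ring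
    rw [this]
    exact add_mem hwT hwT
  have h2w' : (w - u) + (w + u) ∈ R1_T P R := by rwa [add_comm]
  have hA := hpos (w + u) (w - u) (R.add_mem hwR hu) (R.sub_mem hwR hu) hprod h2w
  have hB := hpos (w - u) (w + u) (R.sub_mem hwR hu) (R.add_mem hwR hu)
    (by rw [mul_comm]; exact hprod) h2w'
  have hhalf : (2 : K)⁻¹ ∈ R1_T P R := by
    have h3 : (2 : K)⁻¹ = (1 + 1) * (2 : K)⁻¹ ^ 2 := by
      field_simp
      norm_num
    rw [h3]
    have hone : (1 : K) ∈ R1_T P R := h.P_mem h.one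
    exact R1_mul h.mul (add_mem hone hone) (h.sq_mem (R.inv_mem (R1_two R)))
  obtain ⟨s, hsR, hs⟩ := h.T_sq (R1_mul h.mul hA hhalf)
  obtain ⟨t, htR, ht⟩ := h.T_sq (R1_mul h.mul hB hhalf)
  have hst : (2 * s * t) ^ 2 = v ^ 2 := by
    have h5 : (2 * s * t) ^ 2 = 4 * s ^ 2 * t ^ 2 := by ring
    have h6 : 4 * ((w + u) * 2⁻¹) * ((w - u) * 2⁻¹) = (w + u) * (w - u) * (2 * 2⁻¹) * (2 * 2⁻¹) := by
      ring
    rw [h5, hs, ht, ← hprod, h6, mul_inv_cancel₀ h2]
    ring
  have h3 : 2 * s * t = v ∨ 2 * s * t = -v := sq_eq_sq_iff_eq_or_eq_neg.1 hst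
  have hst2 : s ^ 2 - t ^ 2 = u := by
    rw [hs, ht]
    field_simp
    ring
  rcases h3 with h3 | h3
  · refine ⟨s, hsR, t, htR, ?_⟩
    have : (s + t * i) ^ 2 = s ^ 2 + t ^ 2 * i ^ 2 + 2 * s * t * i := by ring
    rw [this, hi, h3]
    linear_combination hst2
  · refine ⟨s, hsR, -t, R.neg_mem htR, ?_⟩
    have : (s + -t * i) ^ 2 = s ^ 2 + t ^ 2 * i ^ 2 - 2 * s * t * i := by ring
    rw [this, hi, h3]
    linear_combination hst2

theorem i_not_mem (h : R1_Max P R) {i : K} (hi : i ^ 2 = -1) : i ∉ R := by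
  intro hiR
  apply h.proper
  rw [← hi]
  exact h.sq_mem hiR

end R1_Max

/-- Existence of maximal subfields. -/
theorem R1_exists_max (P : Set K) (E : Subfield K) (hPE : ∀ q ∈ P, q ∈ E) (h1 : (1 : K) ∈ P)
    (hmul : ∀ q ∈ P, ∀ r ∈ P, q * r ∈ P) (hprop : (-1 : K) ∉ R1_T P E)
    (hroot : ∀ x : K, ∃ y : K, y ^ 2 = x) :
    ∃ R : Subfield K, E ≤ R ∧ R1_Max P R := by
  have hz := zorn_le_nonempty₀ {R : Subfield K | E ≤ R ∧ (-1 : K) ∉ R1_T P R} ?_ E
    ⟨le_refl E, hprop⟩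
  · obtain ⟨R, hER, hmax⟩ := hz
    refine ⟨R, hER, ⟨fun q hq => hER (hPE q hq), h1, hmul, hmax.prop.2, ?_, hroot⟩⟩
    intro R' hRR' hR'
    exact (hmax.eq_of_le ⟨hER.trans hRR', hR'⟩ hRR').symm
  · intro c hc hchain y hy
    refine ⟨sSup c, ⟨(hc hy).1.trans (le_sSup hy), ?_⟩, fun z hz => le_sSup hz⟩
    have hdir : DirectedOn (· ≤ ·) c := hchain.directedOn
    have key : ∀ t ∈ R1_T P (sSup c), ∃ R ∈ c, t ∈ R1_T P R := by
      intro t ht
      induction ht using AddSubmonoid.closure_induction with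
      | mem t ht =>
        obtain ⟨q, hq, x, hx, rfl⟩ := ht
        rw [Subfield.mem_sSup_of_directedOn ⟨y, hy⟩ hdir] at hx
        obtain ⟨R, hR, hxR⟩ := hx
        exact ⟨R, hR, R1_gen hq hxR⟩
      | zero => exact ⟨y, hy, zero_mem _⟩
      | add a b _ _ ha hb =>
        obtain ⟨R, hR, ha⟩ := ha
        obtain ⟨R', hR', hb⟩ := hb
        obtain ⟨R'', hR'', h1, h2⟩ := hdir R hR R' hR'
        exact ⟨R'', hR'', add_mem (R1_mono h1 ha) (R1_mono h2 hb)⟩
    intro hcon
    obtain ⟨R, hR, hcon⟩ := key _ hcon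
    exact (hc hR).2 hcon

end R1a

section R1b

variable {G K : Type*} [Group G] [TopologicalSpace G]
  [IsTopologicalGroup G] [CompactSpace G] [T2Space G] [TotallyDisconnectedSpace G] [Field K]
  [MulSemiringAction G K] {ζ : K}

/-- The pointwise stabilizer of a set. -/
def R1_fix (G : Type*) {K : Type*} [Group G] [Field K] [MulSemiringAction G K] (C : Set K) :
    Subgroup G where
  carrier := {σ | ∀ x ∈ C, σ • x = x}
  mul_mem' := by
    intro a b ha hb x hx
    rw [mul_smul, hb x hx, ha x hx]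
  one_mem' := fun x _ => one_smul G x
  inv_mem' := by
    intro a ha x hx
    rw [inv_smul_eq_iff, ha x hx]

omit [CompactSpace G] [T2Space G] [TotallyDisconnectedSpace G] in
theorem R1_fix_closed (hc : ∀ x : K, IsOpen {σ : G | σ • x = x}) (C : Set K) :
    IsClosed (R1_fix G C : Set G) := by
  have h1 : (R1_fix G C : Set G) = ⋂ x ∈ C, {σ : G | σ • x = x} := by
    ext σ
    simp [R1_fix]
  rw [h1]
  refine isClosed_biInter fun x _ => ?_
  have h2 : ({σ : G | σ • x = x} : Set G) = (MulAction.stabilizer G x : Set G) := by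
    ext σ
    simp [MulAction.mem_stabilizer_iff]
  rw [h2]
  apply Subgroup.isClosed_of_isOpen
  rw [← h2]
  exact hc x

theorem exists_involution (Gd : Good 2 G K ζ) (P : Set (Fxs G K)) (hP : IsPos P)
    {a b : Fxs G K} (ha : a ∉ P) (hb : b ∉ P) (ha0 : a ≠ 0) (hb0 : b ≠ 0) :
    ∃ c : G, c * c = 1 ∧ c ≠ 1 ∧ ∀ α : K, (α ^ 2 = (a : K) ∨ α ^ 2 = (b : K)) → c • α = -α := by
  classical
  have hFx : ∀ x : K, x ∈ (Fx G : Set K) → x ∈ Fxs G K := fun x hx => hx
  set P' : Set K := Subtype.val '' P with hP'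
  have h1P : (1 : Fxs G K) ∈ P := by
    rcases hP.total (one_ne_zero : (1 : Fxs G K) ≠ 0) with h | h
    · exact h
    · have := hP.mul h h
      rwa [neg_mul_neg, one_mul] at this
  have hsqP : ∀ x : Fxs G K, x ≠ 0 → x ^ 2 ∈ P := by
    intro x hx
    rw [sq]
    rcases hP.total hx with h | h
    · exact hP.mul h h
    · have := hP.mul h h
      rwa [neg_mul_neg] at this
  have hT : ∀ t ∈ R1_T P' (Fxs G K), t = 0 ∨ t ∈ P' := by
    intro t ht
    induction ht using AddSubmonoid.closure_induction with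
    | mem t ht =>
      obtain ⟨_, ⟨q, hq, rfl⟩, x, hx, rfl⟩ := ht
      by_cases hx0 : x = 0
      · left
        rw [hx0]
        ring
      · right
        refine ⟨q * ⟨x, hx⟩ ^ 2, hP.mul hq (hsqP _ ?_), by simp⟩
        intro h0
        exact hx0 (congrArg Subtype.val h0)
    | zero => exact Or.inl rfl
    | add s t _ _ hs ht =>
      rcases hs with rfl | ⟨q, hq, rfl⟩
      · rw [zero_add]
        exact ht
      · rcases ht with rfl | ⟨r, hr, rfl⟩
        · rw [add_zero]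
          exact Or.inr ⟨q, hq, rfl⟩
        · exact Or.inr ⟨q + r, hP.add hq hr, by simp⟩
  have hprop : (-1 : K) ∉ R1_T P' (Fxs G K) := by
    intro h
    rcases hT _ h with h | ⟨q, hq, hq1⟩
    · exact one_ne_zero (neg_eq_zero.1 h)
    · have h2 : q = -1 := Subtype.ext (by rw [hq1]; simp)
      rw [h2] at hq
      have := hP.add h1P hq
      rw [add_neg_cancel] at this
      exact hP.zero this
  obtain ⟨R, hER, hR⟩ := R1_exists_max P' (Fxs G K)
    (by rintro _ ⟨q, _, rfl⟩; exact q.2) ⟨1, h1P, by simp⟩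
    (by rintro _ ⟨q, hq, rfl⟩ _ ⟨r, hr, rfl⟩; exact ⟨q * r, hP.mul hq hr, by simp⟩) hprop Gd.root
  obtain ⟨i, hi⟩ := Gd.root (-1)
  have hiR : i ^ 2 ∈ R := by rw [hi]; exact R.neg_mem R.one_mem
  have hi0 : i ≠ 0 := by
    rintro rfl
    norm_num at hi
  -- `K = R(i)`
  have hC : ∀ z : K, z ∈ R1_ext R i hiR := by
    by_contra hcon
    push Not at hcon
    obtain ⟨z, hz⟩ := hcon
    set C := R1_ext R i hiR with hCdef
    have hFC : ∀ x ∈ (Fx G : Set K), x ∈ C := fun x hx => R1_le_ext R i hiR (hER (hFx x hx))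
    set H : Subgroup G := R1_fix G (C : Set K) with hH
    have hHcl : IsClosed (H : Set G) := R1_fix_closed Gd.cont _
    have : CompactSpace H := isCompact_iff_compactSpace.1 hHcl.isCompact
    have hex : ∃ σ ∈ H, σ • z ≠ z := by
      by_contra hno
      push Not at hno
      exact hz (mem_of_fixed Gd.cont Gd.faith C hFC z fun σ hσ => hno σ hσ)
    obtain ⟨σ, hσH, hσz⟩ := hex
    have GdH : Good 2 H K ζ := Gd.sub H
    have hne : (⊥ : Subgroup H) ≠ ⊤ := by
      intro h0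
      have h1 : (⟨σ, hσH⟩ : H) ∈ (⊥ : Subgroup H) := by
        rw [h0]
        trivial
      rw [Subgroup.mem_bot] at h1
      apply hσz
      have h2 : σ = 1 := congrArg Subtype.val h1
      rw [h2, one_smul]
    have hbot : IsClosed ((⊥ : Subgroup H) : Set H) := by
      rw [Subgroup.coe_bot]
      exact isClosed_singleton
    obtain ⟨χ, hχ, ⟨τ, hτ⟩, -⟩ := exists_ch GdH.pp (⊥ : Subgroup H) hbot hne
    obtain ⟨x, hxF, hx0, hkum⟩ := kum_surj GdH hχ
    have hxC : x ∈ C := mem_of_fixed Gd.cont Gd.faith C hFC x fun σ hσ =>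
      hxF (⟨σ, hσ⟩ : H)
    obtain ⟨u, hu, v, hv, hxuv⟩ := hxC
    obtain ⟨s, hs, t, ht, hst⟩ := hR.sq_ext hi hu hv
    have hyC : s + t * i ∈ C := ⟨s, hs, t, ht, rfl⟩
    have hyx : (s + t * i) ^ 2 = x := by rw [hst, hxuv]
    have h1 := hkum _ hyx τ
    have h2 : τ • (s + t * i) = s + t * i := τ.2 _ hyC
    rw [h2] at h1
    have hy0 : s + t * i ≠ 0 := by
      intro h0
      apply hx0
      rw [← hyx, h0]
      ring
    have h3 : ζ ^ (χ τ).val = 1 := by
      have := mul_right_cancel₀ hy0 ((one_mul _).trans h1)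
      exact this.symm
    have h4 : 2 ∣ (χ τ).val := (Gd.prim.pow_eq_one_iff_dvd _).1 h3
    have h5 : (χ τ).val < 2 := ZMod.val_lt _
    have h6 : (χ τ).val = 0 := by omega
    exact hτ ((ZMod.val_eq_zero _).1 h6)
  -- the involution
  have hex : ∃ c : G, (∀ x ∈ R, c • x = x) ∧ c • i ≠ i := by
    by_contra hno
    push Not at hno
    exact hR.i_not_mem hi (mem_of_fixed Gd.cont Gd.faith R (fun x hx => hER (hFx x hx)) i
      fun σ hσ => hno σ hσ)
  obtain ⟨c, hcR, hci⟩ := hex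
  have hci' : c • i = -i := by
    have h1 : (c • i) ^ 2 = i ^ 2 := by
      rw [← smul_pow', hi, smul_neg, smul_one]
    rcases sq_eq_sq_iff_eq_or_eq_neg.1 h1 with h | h
    · exact absurd h hci
    · exact h
  refine ⟨c, ?_, ?_, ?_⟩
  · apply Gd.faith
    intro z
    obtain ⟨u, hu, v, hv, rfl⟩ := hC z
    rw [mul_smul, smul_add, smul_mul', hcR u hu, hcR v hv, hci', smul_add, smul_mul', smul_neg,
      hcR u hu, hcR v hv, hci', neg_neg]
  · rintro rfl
    exact hci (one_smul _ _)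
  · intro α hα
    have key : ∀ x : Fxs G K, x ∉ P → x ≠ 0 → α ^ 2 = (x : K) → c • α = -α := by
      intro x hx hx0 hαx
      have hnx : -x ∈ P := (hP.total hx0).resolve_left hx
      have hT' : (-(x : K)) ∈ R1_T P' R := by
        apply hR.P_mem
        exact ⟨-x, hnx, by simp⟩
      obtain ⟨r, hr, hrx⟩ := hR.T_sq hT'
      have h1 : α ^ 2 = (r * i) ^ 2 := by
        rw [hαx, mul_pow, hrx, hi]
        ring
      rcases sq_eq_sq_iff_eq_or_eq_neg.1 h1 with h | h
      · rw [h, smul_mul', hcR r hr, hci']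
        ring
      · rw [h, smul_neg, smul_mul', hcR r hr, hci']
        ring
    rcases hα with h | h
    · exact key a ha ha0 h
    · exact key b hb hb0 h

end R1b

end Pool.Helper37.ETC
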