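import Pool.Agent.Helper37.ETC.Defs
import Pool.Agent.Helper43.ETC.P78
import Pool.Agent.Helper59.EC.B3
import Pool.Agent.Helper59.EC.C8
import Pool.Agent.Helper59.EC.C9

/-!
# Block ETC-B1: the Hasse principle for symbols on the field itself

If the norm form `ω` does not vanish on `(φ a, φ b)`, localise (`NF.localise`): there is a norm form
`ω'` with `ω' (φ' a) (φ' b) ≠ 0` whose topology is a V-topology, hence given by a valuation ring or
by an archimedean ordering.
-/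

set_option autoImplicit false

namespace Pool.Helper37.ETC

open Pool.Agent.Helper59.EC

theorem B1_nrm_eq {p : ℕ} {F : Type} [Field F] (x : Fin p → F) (a : F) :
    nrm p a x = nf x a := by
  rw [nrm, nf]
  congr 1
  ext i j
  simp only [Matrix.of_apply]
  split_ifs <;> ring

/-- The kernel of `φ` as a subgroup of the units. -/
def B1_ker {p : ℕ} {E V : Type} [Field E] [AddCommGroup V] [Module (ZMod p) V]
    (ω : SF p E V) : Subgroup Eˣ where
  carrier := {x | ω.φ (x : E) = 0}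
  mul_mem' := by
    intro x y hx hy
    have h1 : ω.φ (x : E) = 0 := hx
    have h2 : ω.φ (y : E) = 0 := hy
    have h3 := ω.φ_mul (x : E) y x.ne_zero y.ne_zero
    change ω.φ ((x * y : Eˣ) : E) = 0
    rw [Units.val_mul, h3, h1, h2, add_zero]
  one_mem' := by
    have h3 := ω.φ_mul 1 1 one_ne_zero one_ne_zero
    rw [mul_one] at h3
    change ω.φ ((1 : Eˣ) : E) = 0
    rw [Units.val_one]
    exact left_eq_add.1 h3
  inv_mem' := by
    intro x hx
    have h1 : ω.φ (x : E) = 0 := hx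
    have h0 := ω.φ_mul 1 1 one_ne_zero one_ne_zero
    rw [mul_one] at h0
    have h0' : ω.φ (1 : E) = 0 := left_eq_add.1 h0
    have h3 := ω.φ_mul (x : E) ((x⁻¹ : Eˣ) : E) x.ne_zero (x⁻¹ : Eˣ).ne_zero
    rw [Units.mul_inv, h0', h1, zero_add] at h3
    exact h3.symm

theorem SD.thmB {p : ℕ} [Fact p.Prime] {F V : Type} [Field F] [AddCommGroup V]
    [Module (ZMod p) V] [Finite V] (D : SD p F V)
    (hN : ∀ (x : Fin p → F) (a b : F), a ≠ 0 → b ≠ 0 → nf x a = b → D.ω (D.φ a) (D.φ b) = 0)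
    {a b : F} (ha : a ≠ 0) (hb : b ≠ 0)
    (hv : ∀ O : ValuationSubring F, O ≠ ⊤ → ∀ c : F, c ≠ 0 →
      ∃ (x : Fin p → F), ∃ t ∈ O, nf x a = b + c * t)
    (ho : p = 2 → ∀ P : Set F, IsPos P → a ∈ P ∨ b ∈ P) :
    D.ω (D.φ a) (D.φ b) = 0 := by
  by_contra hne
  rcases finite_or_infinite F with hF | hF
  · apply hne
    rw [D.finite_field (D.φ a)]
    simp
  let ω : NF p F V :=
    { φ := D.φ
      B := D.ω
      φ_mul := fun x y hx hy => D.mul hx hy
      surj := D.surj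
      nondeg := D.nondeg
      steinberg := fun x hx hx1 => D.stein hx hx1
      norm := fun x β hx hβ => hN β x _ hx hβ (B1_nrm_eq β x).symm }
  obtain ⟨V', _, _, _, _, ω', hV, hne'⟩ := ω.localise a b hne
  have hφ1 : ω'.φ 1 = 0 := (B1_ker ω'.toSF).one_mem
  have hpow : ∀ x : Fˣ, x ^ p ∈ B1_ker ω'.toSF := by
    intro x
    have h : ∀ n : ℕ, ω'.φ ((x ^ n : Fˣ) : F) = n • ω'.φ (x : F) := by
      intro n
      induction n with
      | zero => rw [pow_zero, Units.val_one, hφ1, zero_nsmul]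
      | succ n ih =>
        rw [pow_succ, Units.val_mul, ω'.φ_mul _ _ (x ^ n : Fˣ).ne_zero x.ne_zero, ih, succ_nsmul]
    change ω'.φ ((x ^ p : Fˣ) : F) = 0
    rw [h p]
    have h2 : (p : ZMod p) • ω'.φ (x : F) = 0 := by
      rw [ZMod.natCast_self, zero_smul]
    rwa [Nat.cast_smul_eq_nsmul] at h2
  have hU : ω'.nbh {1} ∈ ω'.top.N := ω'.nbh_mem_top {1}
  have hU1 : ∀ u ∈ ω'.nbh {1}, 1 + u ≠ 0 ∧ ω'.φ (1 + u) = 0 := by
    intro u hu
    have := hu 1 (Finset.mem_singleton_self _)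
    rw [one_mul] at this
    exact this
  have hopen : ω'.top.OpenSub (B1_ker ω'.toSF) := by
    refine ⟨_, hU, fun u hu => ?_⟩
    obtain ⟨h1, h2⟩ := hU1 u hu
    exact ⟨Units.mk0 (1 + u) h1, h2, rfl⟩
  by_cases hZ : ω'.top.Bdd (Set.range fun n : ℤ => (n : F))
  · obtain ⟨O, hO, hτ⟩ := FTop.exists_val hV hZ
    rw [hτ] at hU
    obtain ⟨c, hc, hcO⟩ := hU
    obtain ⟨x, t, ht, hx⟩ := hv O hO (c * b) (mul_ne_zero hc hb)
    have h1 := hU1 _ (hcO t ht)
    have h2 : nf x a = b * (1 + c * t) := by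
      rw [hx]
      ring
    have h3 : nrm p a x ≠ 0 := by
      rw [B1_nrm_eq, h2]
      exact mul_ne_zero hb h1.1
    have h4 := ω'.norm a x ha h3
    rw [B1_nrm_eq, h2, ω'.φ_mul _ _ hb h1.1, h1.2, add_zero] at h4
    exact hne' h4
  · have hne0 : B1_ker ω'.toSF ≠ ⊤ := by
      intro h0
      obtain ⟨v, hv0⟩ := exists_ne (0 : V')
      obtain ⟨x, hx, hxv⟩ := ω'.surj v
      apply hv0
      have h1 : Units.mk0 x hx ∈ B1_ker ω'.toSF := by
        rw [h0]
        trivial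
      rw [← hxv]
      exact h1
    obtain ⟨hp2, hneg, -, htot, hadd, -⟩ := FTop.classify_arch hV (Fact.out : p.Prime) hpow hopen
      hne0 hZ
    have hP : IsPos {x : F | ∃ k ∈ B1_ker ω'.toSF, (k : F) = x} := by
      constructor
      · rintro ⟨k, _, hk⟩
        exact k.ne_zero hk
      · rintro x y ⟨k, hk, rfl⟩ ⟨l, hl, rfl⟩
        obtain ⟨z, hz, hz1⟩ := hadd k hk l hl
        exact ⟨z, hz, hz1⟩
      · rintro x y ⟨k, hk, rfl⟩ ⟨l, hl, rfl⟩
        exact ⟨k * l, mul_mem hk hl, by simp⟩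
      · intro x hx
        rcases htot (Units.mk0 x hx) with h | h
        · exact Or.inl ⟨_, h, rfl⟩
        · exact Or.inr ⟨_, h, by simp⟩
    rcases ho hp2 _ hP with ⟨k, hk, rfl⟩ | ⟨k, hk, rfl⟩
    · apply hne'
      have : ω'.φ (k : F) = 0 := hk
      rw [this]
      simp
    · apply hne'
      have : ω'.φ (k : F) = 0 := hk
      rw [this]
      simp

end Pool.Helper37.ETC
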